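import Pool.Agent.Helper928.PP.Main

set_option autoImplicit false

/-!
# MP_51c8ca_al: property (P) for pairs of equivalence relations without 4-cycles

`α`-classes and `β`-classes are the vertices of a bipartite graph, elements of `E` are its edges.
-/

namespace Pool.Agent.Results.MP_51c8ca_al.FourCycleFree

universe u

/-- `f` preserves the equivalence relation `θ`. -/
def Preserves {E : Type u} (f : E → E → E) (θ : Setoid E) : Prop :=
  ∀ x x' y y' : E, θ.r x x' → θ.r y y' → θ.r (f x y) (f x' y')

/-- Property (P): the two projections are the only idempotent maps `E × E → E` that preserve every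
member of `S`. -/
def PropP {E : Type u} (S : Set (Setoid E)) : Prop :=
  ∀ f : E → E → E, (∀ x, f x x = x) → (∀ θ ∈ S, Preserves f θ) →
    (∀ x y, f x y = x) ∨ (∀ x y, f x y = y)

/-- No 4-cycles: if `a α b β c α d β a` then `a = b` or `b = c`. -/
def NoFourCycle {E : Type u} (α β : Setoid E) : Prop :=
  ∀ a b c d : E, α.r a b → β.r b c → α.r c d → β.r d a → a = b ∨ b = c

/-- All classes of `α` and of `β` have at least two elements. -/
def BigClasses {E : Type u} (α β : Setoid E) : Prop :=
  ∀ x : E, (∃ y, y ≠ x ∧ α.r x y) ∧ ∃ y, y ≠ x ∧ β.r x y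

/-- The join of `α` and `β` is the total relation: a set that is a union of `α`-classes and a union
of `β`-classes is empty or everything. -/
def Connected {E : Type u} (α β : Setoid E) : Prop :=
  ∀ A : Set E, (∀ x y, α.r x y → (x ∈ A ↔ y ∈ A)) → (∀ x y, β.r x y → (x ∈ A ↔ y ∈ A)) →
    A = ∅ ∨ A = Set.univ

open Classical in
/-- first necessary condition: the members of `S` separate points -/
theorem nec_meet {E : Type u} (S : Set (Setoid E)) (h : PropP S) (x y : E)
    (hxy : ∀ θ ∈ S, θ.r x y) : x = y := by
  by_contra hne
  have hf := h (fun u v => if u = x ∧ v = y then y else u) ?_ ?_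
  · rcases hf with hf | hf
    · have := hf x y
      simp at this
      exact hne this.symm
    · have := hf y x
      have hne' : ¬ (y = x) := fun e => hne e.symm
      simp [hne'] at this
  · intro u
    by_cases hu : u = x ∧ u = y
    · exact absurd (hu.1.symm.trans hu.2) hne
    · simp [hu]
  · intro θ hθ
    have key : ∀ u v, θ.r (if u = x ∧ v = y then y else u) u := by
      intro u v
      by_cases hu : u = x ∧ v = y
      · rw [if_pos hu, hu.1]
        exact θ.symm (hxy θ hθ)
      · rw [if_neg hu]
    intro u u' v v' huu _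
    exact θ.trans (key u v) (θ.trans huu (θ.symm (key u' v')))

open Classical in
/-- second necessary condition: the join of the members of `S` is the total relation -/
theorem nec_join {E : Type u} (S : Set (Setoid E)) (h : PropP S) (A : Set E)
    (hA : ∀ θ ∈ S, ∀ x y, θ.r x y → (x ∈ A ↔ y ∈ A)) : A = ∅ ∨ A = Set.univ := by
  by_contra hcon
  push Not at hcon
  obtain ⟨h1, h2⟩ := hcon
  obtain ⟨a, ha⟩ := Set.nonempty_iff_ne_empty.2 (Set.nonempty_iff_ne_empty.1 h1)
  obtain ⟨b, hb⟩ := (Set.ne_univ_iff_exists_notMem A).1 h2
  have hne : a ≠ b := by rintro rfl; exact hb ha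
  have hf := h (fun u v => if u ∈ A ∧ v ∉ A then v else u) ?_ ?_
  · rcases hf with hf | hf
    · have := hf a b
      simp [ha, hb] at this
      exact hne this.symm
    · have := hf b a
      simp [hb] at this
      exact hne this.symm
  · intro u
    by_cases hu : u ∈ A <;> simp [hu]
  · intro θ hθ u u' v v' huu hvv
    have e1 := hA θ hθ _ _ huu
    have e2 := hA θ hθ _ _ hvv
    by_cases hu : u ∈ A ∧ v ∉ A
    · have hu' : u' ∈ A ∧ v' ∉ A := ⟨e1.1 hu.1, fun h => hu.2 (e2.2 h)⟩
      simp only [if_pos hu, if_pos hu']
      exact hvv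
    · have hu' : ¬ (u' ∈ A ∧ v' ∉ A) := fun h => hu ⟨e1.2 h.1, fun h' => h.2 (e2.1 h')⟩
      simp only [if_neg hu, if_neg hu']
      exact huu

open Classical in
/-- third necessary condition: no class of a member `θ` of `S` is dominated by another class -/
theorem nec_dom {E : Type u} (S : Set (Setoid E)) (h : PropP S) (θ : Setoid E) (x y : E)
    (hdom : ∀ u, θ.r x u → ∃ w, θ.r y w ∧ ∀ φ ∈ S, φ ≠ θ → φ.r u w) : θ.r x y := by
  by_contra hne
  choose g hg1 hg2 using hdom
  have hf := h (fun u v => if hh : θ.r x u ∧ ¬ θ.r x v then g u hh.1 else u) ?_ ?_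
  · rcases hf with hf | hf
    · have e := hf x y
      have hh : θ.r x x ∧ ¬ θ.r x y := ⟨θ.refl x, hne⟩
      simp only [dif_pos hh] at e
      have := hg1 x hh.1
      rw [e] at this
      exact hne (θ.symm this)
    · have e := hf y x
      have hh : ¬ (θ.r x y ∧ ¬ θ.r x x) := fun h => hne h.1
      simp only [dif_neg hh] at e
      exact hne (e ▸ θ.refl x)
  · intro u
    have hh : ¬ (θ.r x u ∧ ¬ θ.r x u) := fun h => h.2 h.1
    simp only [dif_neg hh]
  · intro φ hφ
    by_cases hφθ : φ = θ
    · subst hφθ
      intro u u' v v' huu hvv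
      by_cases hh : φ.r x u ∧ ¬ φ.r x v
      · have hh' : φ.r x u' ∧ ¬ φ.r x v' :=
          ⟨φ.trans hh.1 huu, fun h => hh.2 (φ.trans h (φ.symm hvv))⟩
        simp only [dif_pos hh, dif_pos hh']
        exact φ.trans (φ.symm (hg1 u hh.1)) (hg1 u' hh'.1)
      · have hh' : ¬ (φ.r x u' ∧ ¬ φ.r x v') := fun h =>
          hh ⟨φ.trans h.1 (φ.symm huu), fun h' => h.2 (φ.trans h' hvv)⟩
        simp only [dif_neg hh, dif_neg hh']
        exact huu
    · have key : ∀ u v, φ.r (if hh : θ.r x u ∧ ¬ θ.r x v then g u hh.1 else u) u := by
        intro u v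
        by_cases hh : θ.r x u ∧ ¬ θ.r x v
        · rw [dif_pos hh]
          exact φ.symm (hg2 u hh.1 φ hφ hφθ)
        · rw [dif_neg hh]
      intro u u' v v' huu _
      exact φ.trans (key u v) (φ.trans huu (φ.symm (key u' v')))


theorem NoFourCycle.disj {E : Type u} {α β : Setoid E} (h : NoFourCycle α β) {x y : E}
    (h1 : α.r x y) (h2 : β.r x y) : x = y := by
  rcases h x y x y h1 (β.symm h2) h1 (β.symm h2) with e | e
  · exact e
  · exact e.symm

/-- incidence of an `α`-class and a `β`-class -/
def Inc {E : Type u} (α β : Setoid E) (p : Quotient α) (l : Quotient β) : Prop :=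
  ∃ e : E, Quotient.mk α e = p ∧ Quotient.mk β e = l

/-- adjacency in the bipartite graph of classes -/
def AdjR {E : Type u} (α β : Setoid E) : Quotient α ⊕ Quotient β → Quotient α ⊕ Quotient β → Prop
  | .inl p, .inr l => Inc α β p l
  | .inr l, .inl p => Inc α β p l
  | .inl _, .inl _ => False
  | .inr _, .inr _ => False

/-- the bipartite graph of classes -/
def graph {E : Type u} (α β : Setoid E) : SimpleGraph (Quotient α ⊕ Quotient β) where
  Adj := AdjR α β
  symm := by
    constructor
    rintro (p | l) (q | m) h
    · exact h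
    · exact h
    · exact h
    · exact h
  loopless := by
    constructor
    rintro (p | l) h
    · exact h
    · exact h

/-- the colouring -/
def col {E : Type u} (α β : Setoid E) : Quotient α ⊕ Quotient β → Bool
  | .inl _ => false
  | .inr _ => true

/-- the induced map on the vertices -/
def ind {E : Type u} {α β : Setoid E} (fP : Quotient α → Quotient α → Quotient α)
    (fL : Quotient β → Quotient β → Quotient β) :
    Quotient α ⊕ Quotient β → Quotient α ⊕ Quotient β → Quotient α ⊕ Quotient β
  | .inl p, .inl q => .inl (fP p q)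
  | .inr l, .inr m => .inr (fL l m)
  | .inl p, .inr _ => .inl p
  | .inr l, .inl _ => .inr l

theorem positive {E : Type u} [Finite E] (α β : Setoid E) (h4 : NoFourCycle α β)
    (hB : BigClasses α β) (hC : Connected α β) (f : E → E → E) (hid : ∀ x, f x x = x)
    (fα : Preserves f α) (fβ : Preserves f β) : (∀ x y, f x y = x) ∨ (∀ x y, f x y = y) := by
  rcases isEmpty_or_nonempty E with hE | ⟨⟨e0⟩⟩
  · left
    intro x
    exact (hE.false x).elim
  let fP : Quotient α → Quotient α → Quotient α :=
    Quotient.map₂ f (fun x x' h y y' h' => fα x x' y y' h h')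
  let fL : Quotient β → Quotient β → Quotient β :=
    Quotient.map₂ f (fun x x' h y y' h' => fβ x x' y y' h h')
  have hP : ∀ x y, fP (Quotient.mk α x) (Quotient.mk α y) = Quotient.mk α (f x y) := fun _ _ => rfl
  have hLL : ∀ x y, fL (Quotient.mk β x) (Quotient.mk β y) = Quotient.mk β (f x y) :=
    fun _ _ => rfl
  have setup : Pool.Agent.Helper928.PP.Setup (graph α β) (col α β) (ind fP fL) := by
    refine ⟨?_, ?_, ?_, ?_⟩
    · rintro (p | l) (q | m) h
      · exact h.elim
      · simp [col]
      · simp [col]
      · exact h.elim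
    · rintro (p | l) (b | b) (c | c) (d | d) h1 h2 h3 h5
      all_goals try exact h1.elim
      all_goals try exact h2.elim
      all_goals try exact h3.elim
      · obtain ⟨x1, x1a, x1b⟩ := h1
        obtain ⟨x2, x2a, x2b⟩ := h2
        obtain ⟨x3, x3a, x3b⟩ := h3
        obtain ⟨x4, x4a, x4b⟩ := h5
        rcases h4 x2 x3 x4 x1 (Quotient.exact (x2a.trans x3a.symm))
          (Quotient.exact (x3b.trans x4b.symm)) (Quotient.exact (x4a.trans x1a.symm))
          (Quotient.exact (x1b.trans x2b.symm)) with e | e
        · right
          rw [← x2b, ← x3b, e]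
        · left
          rw [← x4a, ← x3a, e]
      · obtain ⟨x1, x1a, x1b⟩ := h1
        obtain ⟨x2, x2a, x2b⟩ := h2
        obtain ⟨x3, x3a, x3b⟩ := h3
        obtain ⟨x4, x4a, x4b⟩ := h5
        rcases h4 x1 x2 x3 x4 (Quotient.exact (x1a.trans x2a.symm))
          (Quotient.exact (x2b.trans x3b.symm)) (Quotient.exact (x3a.trans x4a.symm))
          (Quotient.exact (x4b.trans x1b.symm)) with e | e
        · left
          rw [← x1b, ← x2b, e]
        · right
          rw [← x2a, ← x3a, e]
    · rintro (x | x) (x' | x') (y | y) (y' | y') hc h1 h2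
      all_goals try exact h1.elim
      all_goals try exact h2.elim
      all_goals try exact (Bool.false_ne_true hc).elim
      all_goals try exact (Bool.false_ne_true hc.symm).elim
      · obtain ⟨e, rfl, rfl⟩ := h1
        obtain ⟨e', rfl, rfl⟩ := h2
        exact ⟨f e e', rfl, rfl⟩
      · obtain ⟨e, rfl, rfl⟩ := h1
        obtain ⟨e', rfl, rfl⟩ := h2
        exact ⟨f e e', rfl, rfl⟩
    · rintro (p | l)
      · refine Quotient.inductionOn p fun x => ?_
        change Sum.inl (Quotient.mk α (f x x)) = _
        rw [hid]
      · refine Quotient.inductionOn l fun x => ?_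
        change Sum.inr (Quotient.mk β (f x x)) = _
        rw [hid]
  have hdeg : ∀ v u, (graph α β).Adj v u → ∃ w, w ≠ u ∧ (graph α β).Adj v w := by
    rintro (p | l) (q | m) h
    · exact h.elim
    · obtain ⟨e, rfl, rfl⟩ := h
      obtain ⟨e', hne, he'⟩ := (hB e).1
      refine ⟨.inr (Quotient.mk β e'), ?_, ⟨e', (Quotient.sound he').symm, rfl⟩⟩
      intro hcon
      have : β.r e' e := Quotient.exact (Sum.inr.inj hcon)
      exact hne (h4.disj (α.symm he') this)
    · obtain ⟨e, rfl, rfl⟩ := h
      obtain ⟨e', hne, he'⟩ := (hB e).2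
      refine ⟨.inl (Quotient.mk α e'), ?_, ⟨e', rfl, (Quotient.sound he').symm⟩⟩
      intro hcon
      have : α.r e' e := Quotient.exact (Sum.inl.inj hcon)
      exact hne (h4.disj this (β.symm he'))
    · exact h.elim
  have adjE : ∀ e : E, (graph α β).Adj (.inl (Quotient.mk α e)) (.inr (Quotient.mk β e)) :=
    fun e => ⟨e, rfl, rfl⟩
  have hreach : ∀ e : E, (graph α β).Reachable (.inl (Quotient.mk α e0))
      (.inl (Quotient.mk α e)) := by
    have half : ∀ x y, β.r x y → (graph α β).Reachable (.inl (Quotient.mk α e0))
        (.inl (Quotient.mk α x)) → (graph α β).Reachable (.inl (Quotient.mk α e0))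
        (.inl (Quotient.mk α y)) := by
      intro x y hxy hx
      have e1 : Quotient.mk β x = Quotient.mk β y := Quotient.sound hxy
      have a1 := (adjE x).reachable
      have a2 := (adjE y).symm.reachable
      rw [e1] at a1
      exact (hx.trans a1).trans a2
    have c1 : ∀ x y, α.r x y →
        (x ∈ ({e | (graph α β).Reachable (.inl (Quotient.mk α e0))
          (.inl (Quotient.mk α e))} : Set E) ↔
        y ∈ ({e | (graph α β).Reachable (.inl (Quotient.mk α e0))
          (.inl (Quotient.mk α e))} : Set E)) := by
      intro x y hxy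
      have : Quotient.mk α x = Quotient.mk α y := Quotient.sound hxy
      simp only [Set.mem_ofPred_eq, this]
    have c2 : ∀ x y, β.r x y →
        (x ∈ ({e | (graph α β).Reachable (.inl (Quotient.mk α e0))
          (.inl (Quotient.mk α e))} : Set E) ↔
        y ∈ ({e | (graph α β).Reachable (.inl (Quotient.mk α e0))
          (.inl (Quotient.mk α e))} : Set E)) := by
      intro x y hxy
      exact ⟨half x y hxy, half y x (β.symm hxy)⟩
    rcases hC _ c1 c2 with h | h
    · exfalso
      have : e0 ∈ ({e | (graph α β).Reachable (.inl (Quotient.mk α e0))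
        (.inl (Quotient.mk α e))} : Set E) := SimpleGraph.Reachable.refl _
      rw [h] at this
      exact this
    · intro e
      have : e ∈ ({e | (graph α β).Reachable (.inl (Quotient.mk α e0))
        (.inl (Quotient.mk α e))} : Set E) := by rw [h]; trivial
      exact this
  have hreach2 : ∀ v, (graph α β).Reachable (.inl (Quotient.mk α e0)) v := by
    rintro (p | l)
    · exact Quotient.inductionOn p hreach
    · refine Quotient.inductionOn l fun x => ?_
      exact (hreach x).trans (adjE x).reachable
  have hconn : (graph α β).Preconnected := fun v w => (hreach2 v).symm.trans (hreach2 w)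
  rcases setup.main hconn hdeg ⟨(_, _), adjE e0⟩ with h | h
  · left
    intro x y
    have s1 := h (.inl (Quotient.mk α x)) (.inl (Quotient.mk α y)) rfl
    have s2 := h (.inr (Quotient.mk β x)) (.inr (Quotient.mk β y)) rfl
    exact h4.disj (Quotient.exact (Sum.inl.inj s1)) (Quotient.exact (Sum.inr.inj s2))
  · right
    intro x y
    have s1 := h (.inl (Quotient.mk α x)) (.inl (Quotient.mk α y)) rfl
    have s2 := h (.inr (Quotient.mk β x)) (.inr (Quotient.mk β y)) rfl
    exact h4.disj (Quotient.exact (Sum.inl.inj s1)) (Quotient.exact (Sum.inr.inj s2))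

theorem negative {E : Type u} (α β : Setoid E)
    (h : PropP ({α, β} : Set (Setoid E))) : Subsingleton E ∨ (BigClasses α β ∧ Connected α β) := by
  by_cases hE : Subsingleton E
  · exact Or.inl hE
  right
  have hC : Connected α β := by
    intro A h1 h2
    refine nec_join _ h A ?_
    rintro θ (rfl | rfl)
    · exact h1
    · exact h2
  -- a class of one relation that is a singleton
  have key : ∀ θ φ : Setoid E, PropP ({θ, φ} : Set (Setoid E)) → Connected θ φ → ∀ x : E,
      ∃ y, y ≠ x ∧ θ.r x y := by
    intro θ φ h hC x
    by_contra hcon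
    push Not at hcon
    have hx : ∀ y, θ.r x y → y = x := by
      intro y hy
      by_contra hne
      exact hcon y hne hy
    by_cases hφ : ∃ y, y ≠ x ∧ φ.r x y
    · obtain ⟨y, hne, hy⟩ := hφ
      have := nec_dom _ h θ x y ?_
      · exact hne (hx y this)
      · intro u hu
        have := hx u hu
        subst this
        refine ⟨y, θ.refl y, ?_⟩
        rintro ψ (rfl | rfl) hψ
        · exact absurd rfl hψ
        · exact hy
    · push Not at hφ
      have hx' : ∀ y, φ.r x y → y = x := by
        intro y hy
        by_contra hne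
        exact hφ y hne hy
      have c1 : ∀ a b, θ.r a b → (a ∈ ({x} : Set E) ↔ b ∈ ({x} : Set E)) := by
        intro a b hab
        simp only [Set.mem_singleton_iff]
        constructor
        · rintro rfl
          exact hx b hab
        · rintro rfl
          exact hx a (θ.symm hab)
      have c2 : ∀ a b, φ.r a b → (a ∈ ({x} : Set E) ↔ b ∈ ({x} : Set E)) := by
        intro a b hab
        simp only [Set.mem_singleton_iff]
        constructor
        · rintro rfl
          exact hx' b hab
        · rintro rfl
          exact hx' a (φ.symm hab)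
      rcases hC {x} c1 c2 with e | e
      · exact absurd e (Set.singleton_ne_empty x)
      · apply hE
        constructor
        intro a b
        have ha : a ∈ ({x} : Set E) := by rw [e]; trivial
        have hb : b ∈ ({x} : Set E) := by rw [e]; trivial
        rw [Set.mem_singleton_iff] at ha hb
        rw [ha, hb]
  refine ⟨fun x => ⟨key α β h hC x, key β α ?_ ?_ x⟩, hC⟩
  · rw [Set.pair_comm]
    exact h
  · intro A h1 h2
    exact hC A h2 h1

/-- an intersection of members of `S` is preserved -/
theorem preserves_inter {E : Type u} {α : Setoid E} {S T : Set (Setoid E)} (hT : T ⊆ S)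
    (hα : ∀ x y, α.r x y ↔ ∀ θ ∈ T, θ.r x y) {f : E → E → E} (hS : ∀ θ ∈ S, Preserves f θ) :
    Preserves f α := by
  intro x x' y y' hx hy
  rw [hα] at hx hy ⊢
  intro θ hθ
  exact hS θ (hT hθ) x x' y y' (hx θ hθ) (hy θ hθ)

/-- **Theorem.** Let `α, β` be equivalence relations without 4-cycles on a finite set `E`. Then
`{α, β}` has property (P) if and only if `E` has at most one element, or all classes of `α` and `β`
have at least two elements and the join of `α` and `β` is the total relation. In the second case
every family `S` of equivalence relations such that `α` and `β` are intersections of members of `S`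
has property (P). -/
theorem result (E : Type u) [Finite E] (α β : Setoid E) (h4 : NoFourCycle α β) :
    (PropP ({α, β} : Set (Setoid E)) ↔ (Subsingleton E ∨ (BigClasses α β ∧ Connected α β))) ∧
    (BigClasses α β → Connected α β → ∀ S T₁ T₂ : Set (Setoid E), T₁ ⊆ S → T₂ ⊆ S →
      (∀ x y, α.r x y ↔ ∀ θ ∈ T₁, θ.r x y) → (∀ x y, β.r x y ↔ ∀ θ ∈ T₂, θ.r x y) →
      PropP S) := by
  refine ⟨⟨negative α β, ?_⟩, ?_⟩
  · rintro (hE | ⟨hB, hC⟩)
    · intro f _ _
      left
      intro x y
      exact Subsingleton.elim _ _
    · intro f hid hS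
      exact positive α β h4 hB hC f hid (hS α (Set.mem_insert _ _))
        (hS β (Set.mem_insert_of_mem _ rfl))
  · intro hB hC S T₁ T₂ h1 h2 hα hβ f hid hS
    exact positive α β h4 hB hC f hid (preserves_inter h1 hα hS) (preserves_inter h2 hβ hS)

end Pool.Agent.Results.MP_51c8ca_al.FourCycleFree
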