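import Mathlib

set_option autoImplicit false

/-!
# MP_51c8ca_al: property (P) for pairs of equivalence relations that form a linear space

`α`-classes are points, `β`-classes are lines, elements of `E` are flags.
-/

namespace Pool.Agent.Results.MP_51c8ca_al.LinearSpaces

universe u

/-- `f` preserves the equivalence relation `θ`. -/
def Preserves {E : Type u} (f : E → E → E) (θ : Setoid E) : Prop :=
  ∀ x x' y y' : E, θ.r x x' → θ.r y y' → θ.r (f x y) (f x' y')

/-- Property (P): the two projections are the only idempotent maps `E × E → E` that preserve every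
member of `S`. -/
def PropP {E : Type u} (S : Set (Setoid E)) : Prop :=
  ∀ f : E → E → E, (∀ x, f x x = x) → (∀ θ ∈ S, Preserves f θ) →
    (∀ x y, f x y = x) ∨ (∀ x y, f x y = y)

/-- Any two different `α`-classes (points) are met by exactly one common `β`-class (line). -/
def Linear {E : Type u} (α β : Setoid E) : Prop :=
  ∀ x y : E, ¬ α.r x y → ∃ u v, α.r x u ∧ β.r u v ∧ α.r v y ∧
    ∀ u' v', α.r x u' → β.r u' v' → α.r v' y → β.r u u'

/-- The pair is nondegenerate: `α ∩ β` is equality, every `β`-class has at least two elements, and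
every `β`-class is disjoint from some `α`-class. -/
def Nondegenerate {E : Type u} (α β : Setoid E) : Prop :=
  (∀ x y, α.r x y → β.r x y → x = y) ∧ (∀ x, ∃ y, β.r x y ∧ y ≠ x) ∧
    (∀ x, ∃ y, ∀ z, β.r x z → ¬ α.r z y)

section Incidence

variable {P L : Type*} {I : P → L → Prop}
  (h1 : ∀ p q, p ≠ q → ∃ l, I p l ∧ I q l)
  (h2 : ∀ p q l m, p ≠ q → I p l → I q l → I p m → I q m → l = m)
  (h3 : ∀ l, ∃ p, ¬ I p l)
  (h4 : ∀ l, ∃ p q, p ≠ q ∧ I p l ∧ I q l)
  {fP : P → P → P} {fL : L → L → L}
  (hf : ∀ p p' l l', I p l → I p' l' → I (fP p p') (fL l l'))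
  (idP : ∀ p, fP p p = p) (idL : ∀ l, fL l l = l)

include h2 in
theorem meet_eq {p q : P} {l m : L} (hlm : l ≠ m) (a : I p l) (b : I p m) (c : I q l)
    (d : I q m) : q = p := by
  by_contra h
  exact hlm (h2 p q l m (Ne.symm h) a c b d)

include h2 hf idP idL in
/-- propagation inside a triangle -/
theorem prop1 {a b c : P} {x y z : L} (hab : a ≠ b)
    (bx : I b x) (cx : I c x) (cy : I c y) (ay : I a y) (az : I a z) (bz : I b z)
    (hxz : x ≠ z) (hyz : y ≠ z) (h : fP a b = a) : fP a c = a ∧ fP b c = b := by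
  have e : fL z x = z := by
    refine h2 a b _ _ hab ?_ ?_ az bz
    · have := hf a b z x az bx
      rwa [h] at this
    · have := hf b b z x bz bx
      rwa [idP] at this
  constructor
  · have u1 := hf a c z x az cx
    rw [e] at u1
    have u2 := hf a c y y ay cy
    rw [idL] at u2
    exact meet_eq h2 hyz ay az u2 u1
  · have u1 := hf b c z x bz cx
    rw [e] at u1
    have u2 := hf b c x x bx cx
    rw [idL] at u2
    exact meet_eq h2 hxz bx bz u2 u1

include h2 hf idP idL in
/-- `f` is conservative on points -/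
theorem cons {a b c : P} {x y z : L} (hab : a ≠ b) (hac : a ≠ c) (hbc : b ≠ c)
    (bx : I b x) (cx : I c x) (cy : I c y) (ay : I a y) (az : I a z) (bz : I b z)
    (hxz : x ≠ z) (hyz : y ≠ z) : fP a b = a ∨ fP a b = b := by
  by_contra hcon
  push Not at hcon
  obtain ⟨ha, hb⟩ := hcon
  have sz : I (fP a b) z := by
    have := hf a b z z az bz
    rwa [idL] at this
  have sn : I (fP a b) (fL y x) := hf a b y x ay bx
  have cn : I c (fL y x) := by
    have := hf c c y x cy cx
    rwa [idP] at this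
  have ny : fL y x ≠ y := by
    intro e
    rw [e] at sn
    exact ha (meet_eq h2 hyz ay az sn sz)
  have nx : fL y x ≠ x := by
    intro e
    rw [e] at sn
    exact hb (meet_eq h2 hxz bx bz sn sz)
  have e1 : fP a c = c := by
    have u1 := hf a c y x ay cx
    have u2 := hf a c y y ay cy
    rw [idL] at u2
    exact meet_eq h2 ny cn cy u1 u2
  have e2 : fP c b = c := by
    have u1 := hf c b y x cy bx
    have u2 := hf c b x x cx bx
    rw [idL] at u2
    exact meet_eq h2 nx cn cx u1 u2
  have e3 : fL z y = y := by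
    refine h2 a c _ _ hac ?_ ?_ ay cy
    · have := hf a a z y az ay
      rwa [idP] at this
    · have := hf a c z y az cy
      rwa [e1] at this
  have e4 : fL x z = x := by
    refine h2 b c _ _ hbc ?_ ?_ bx cx
    · have := hf b b x z bx bz
      rwa [idP] at this
    · have := hf c b x z cx bz
      rwa [e2] at this
  have u1 := hf b a z y bz ay
  rw [e3] at u1
  have u2 := hf b a x z bx az
  rw [e4] at u2
  have u3 := hf b a z z bz az
  rw [idL] at u3
  have v1 : fP b a = a := meet_eq h2 hyz ay az u1 u3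
  have v2 : fP b a = b := meet_eq h2 hxz bx bz u2 u3
  exact hab (v1.symm.trans v2)

include h1 h2 h3 in
/-- every pair of different points extends to a triangle -/
theorem triangle {a b : P} (hab : a ≠ b) : ∃ (c : P) (x y z : L), a ≠ c ∧ b ≠ c ∧
    I b x ∧ I c x ∧ I c y ∧ I a y ∧ I a z ∧ I b z ∧ x ≠ y ∧ x ≠ z ∧ y ≠ z ∧ ¬ I c z := by
  obtain ⟨z, az, bz⟩ := h1 a b hab
  obtain ⟨c, hc⟩ := h3 z
  have hac : a ≠ c := by rintro rfl; exact hc az
  have hbc : b ≠ c := by rintro rfl; exact hc bz
  obtain ⟨x, bx, cx⟩ := h1 b c hbc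
  obtain ⟨y, ay, cy⟩ := h1 a c hac
  have hxz : x ≠ z := by rintro rfl; exact hc cx
  have hyz : y ≠ z := by rintro rfl; exact hc cy
  have hxy : x ≠ y := by
    rintro rfl
    exact hxz (h2 a b x z hab ay bx az bz)
  exact ⟨c, x, y, z, hac, hbc, bx, cx, cy, ay, az, bz, hxy, hxz, hyz, hc⟩

include h1 h2 h3 hf idP idL in
/-- if one pair of different points is of the first type then all pairs are -/
theorem all_first {a b : P} (hab : a ≠ b) (h : fP a b = a) : ∀ p q, fP p q = p := by
  -- a good point behaves like the first projection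
  have key : ∀ p w, p ≠ w → fP p w = p → ∀ q, p ≠ q → fP p q = p := by
    intro p w hpw hp q hpq
    obtain ⟨c, x, y, z, hac, hbc, bx, cx, cy, ay, az, bz, hxy, hxz, hyz, hcz⟩ :=
      triangle h1 h2 h3 hpw
    have hpc : fP p c = p := (prop1 h2 hf idP idL hpw bx cx cy ay az bz hxz hyz hp).1
    by_cases hq : I q z
    · -- `q` is on the line `z = pw`, use the triangle `p, c, q`
      have hqc : q ≠ c := by rintro rfl; exact hcz hq
      obtain ⟨t, qt, ct⟩ := h1 q c hqc
      have htz : t ≠ z := by rintro rfl; exact hcz ct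
      have hty : t ≠ y := by
        rintro rfl
        exact htz (h2 p q t z hpq ay qt az hq)
      exact (prop1 h2 hf idP idL hac ct qt hq az ay cy hty hyz.symm hpc).1
    · have hwq : w ≠ q := by rintro rfl; exact hq bz
      obtain ⟨t, wt, qt⟩ := h1 w q hwq
      obtain ⟨s, ps, qs⟩ := h1 p q hpq
      have htz : t ≠ z := by rintro rfl; exact hq qt
      have hsz : s ≠ z := by rintro rfl; exact hq qs
      exact (prop1 h2 hf idP idL hpw wt qt qs ps az bz htz hsz hp).1
  have key2 : ∀ p w, p ≠ w → fP p w = p → fP w p = w := by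
    intro p w hpw hp
    obtain ⟨c, x, y, z, hac, hbc, bx, cx, cy, ay, az, bz, hxy, hxz, hyz, hcz⟩ :=
      triangle h1 h2 h3 hpw
    have hwc : fP w c = w := (prop1 h2 hf idP idL hpw bx cx cy ay az bz hxz hyz hp).2
    exact key w c hbc hwc p hpw.symm
  have hA : ∀ q, a ≠ q → fP a q = a := key a b hab h
  intro p q
  by_cases hpq : p = q
  · rw [hpq, idP]
  by_cases hap : a = p
  · subst hap
    exact hA q hpq
  · exact key p a (Ne.symm hap) (key2 a p hap (hA p hap)) q hpq

include h1 h2 h3 h4 hf idP idL in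
theorem main_incidence : ((∀ p q, fP p q = p) ∧ ∀ l m, fL l m = l) ∨
    ((∀ p q, fP p q = q) ∧ ∀ l m, fL l m = m) := by
  by_cases h : ∃ a b, a ≠ b ∧ fP a b = a
  · obtain ⟨a, b, hab, hh⟩ := h
    have hall := all_first h1 h2 h3 hf idP idL hab hh
    left
    refine ⟨hall, fun l m => ?_⟩
    obtain ⟨p, p', hpp, pl, pl'⟩ := h4 l
    obtain ⟨q, _, _, qm, _⟩ := h4 m
    have u1 := hf p q l m pl qm
    have u2 := hf p' q l m pl' qm
    rw [hall] at u1 u2
    exact h2 p p' _ _ hpp u1 u2 pl pl'
  · push Not at h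
    have hall : ∀ p q, fP p q = q := by
      intro p q
      by_cases hpq : p = q
      · rw [hpq, idP]
      · obtain ⟨c, x, y, z, hac, hbc, bx, cx, cy, ay, az, bz, hxy, hxz, hyz, hcz⟩ :=
          triangle h1 h2 h3 hpq
        rcases cons h2 hf idP idL hpq hac hbc bx cx cy ay az bz hxz hyz with e | e
        · exact absurd e (h p q hpq)
        · exact e
    right
    refine ⟨hall, fun l m => ?_⟩
    obtain ⟨p, p', hpp, pl, pl'⟩ := h4 m
    obtain ⟨q, _, _, qm, _⟩ := h4 l
    have u1 := hf q p l m qm pl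
    have u2 := hf q p' l m qm pl'
    rw [hall] at u1 u2
    exact h2 p p' _ _ hpp u1 u2 pl pl'

end Incidence

/-- the positive part -/
theorem positive {E : Type u} (α β : Setoid E) (hL : Linear α β) (hN : Nondegenerate α β)
    (S : Set (Setoid E)) (hα : α ∈ S) (hβ : β ∈ S) : PropP S := by
  obtain ⟨n1, n2, n3⟩ := hN
  intro f hid hS
  have fα := hS α hα
  have fβ := hS β hβ
  let I : Quotient α → Quotient β → Prop := fun p l => ∃ e : E, Quotient.mk α e = p ∧ Quotient.mk β e = l
  let fP : Quotient α → Quotient α → Quotient α :=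
    Quotient.map₂ f (fun x x' h y y' h' => fα x x' y y' h h')
  let fL : Quotient β → Quotient β → Quotient β :=
    Quotient.map₂ f (fun x x' h y y' h' => fβ x x' y y' h h')
  have hP : ∀ x y, fP (Quotient.mk α x) (Quotient.mk α y) = Quotient.mk α (f x y) := fun _ _ => rfl
  have hLL : ∀ x y, fL (Quotient.mk β x) (Quotient.mk β y) = Quotient.mk β (f x y) :=
    fun _ _ => rfl
  have h1 : ∀ p q, p ≠ q → ∃ l, I p l ∧ I q l := by
    intro p q
    refine Quotient.inductionOn₂ p q fun x y hxy => ?_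
    have hxy' : ¬ α.r x y := fun h => hxy (Quotient.sound h)
    obtain ⟨u, v, a1, a2, a3, -⟩ := hL x y hxy'
    exact ⟨Quotient.mk β u, ⟨u, (Quotient.sound a1).symm, rfl⟩,
      ⟨v, Quotient.sound a3, (Quotient.sound a2).symm⟩⟩
  have h2 : ∀ p q l m, p ≠ q → I p l → I q l → I p m → I q m → l = m := by
    rintro p q l m hpq ⟨e1, p1, l1⟩ ⟨e2, q2, l2⟩ ⟨e3, p3, m3⟩ ⟨e4, q4, m4⟩
    have hxy' : ¬ α.r e1 e2 := fun h => hpq (by rw [← p1, ← q2]; exact Quotient.sound h)
    obtain ⟨u, v, a1, a2, a3, a4⟩ := hL e1 e2 hxy'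
    have b1 : β.r e1 e2 := Quotient.exact (l1.trans l2.symm)
    have b2 : β.r e3 e4 := Quotient.exact (m3.trans m4.symm)
    have c1 : α.r e1 e3 := Quotient.exact (p1.trans p3.symm)
    have c2 : α.r e4 e2 := Quotient.exact (q4.trans q2.symm)
    have d1 := a4 e1 e2 (α.refl e1) b1 (α.refl e2)
    have d2 := a4 e3 e4 c1 b2 c2
    rw [← l1, ← m3]
    exact Quotient.sound (β.trans (β.symm d1) d2)
  have h3 : ∀ l, ∃ p, ¬ I p l := by
    intro l
    refine Quotient.inductionOn l fun x => ?_
    obtain ⟨y, hy⟩ := n3 x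
    refine ⟨Quotient.mk α y, ?_⟩
    rintro ⟨e, e1, e2⟩
    exact hy e (β.symm (Quotient.exact e2)) (Quotient.exact e1)
  have h4 : ∀ l, ∃ p q, p ≠ q ∧ I p l ∧ I q l := by
    intro l
    refine Quotient.inductionOn l fun x => ?_
    obtain ⟨y, hy, hne⟩ := n2 x
    refine ⟨Quotient.mk α x, Quotient.mk α y, ?_, ⟨x, rfl, rfl⟩, ⟨y, rfl, ?_⟩⟩
    · intro h
      exact hne (n1 x y (Quotient.exact h) hy).symm
    · exact (Quotient.sound hy).symm
  have hf : ∀ p p' l l', I p l → I p' l' → I (fP p p') (fL l l') := by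
    rintro _ _ _ _ ⟨e, rfl, rfl⟩ ⟨e', rfl, rfl⟩
    exact ⟨f e e', rfl, rfl⟩
  have idP : ∀ p, fP p p = p := by
    intro p
    refine Quotient.inductionOn p fun x => ?_
    rw [hP, hid]
  have idL : ∀ l, fL l l = l := by
    intro p
    refine Quotient.inductionOn p fun x => ?_
    rw [hLL, hid]
  rcases main_incidence h1 h2 h3 h4 hf idP idL with ⟨r1, r2⟩ | ⟨r1, r2⟩
  · left
    intro x y
    have s1 := r1 (Quotient.mk α x) (Quotient.mk α y)
    have s2 := r2 (Quotient.mk β x) (Quotient.mk β y)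
    exact n1 _ _ (Quotient.exact s1) (Quotient.exact s2)
  · right
    intro x y
    have s1 := r1 (Quotient.mk α x) (Quotient.mk α y)
    have s2 := r2 (Quotient.mk β x) (Quotient.mk β y)
    exact n1 _ _ (Quotient.exact s1) (Quotient.exact s2)

open Classical in
/-- first necessary condition: the members of `S` separate points -/
theorem nec_meet {E : Type u} (S : Set (Setoid E)) (h : PropP S) (x y : E)
    (hxy : ∀ θ ∈ S, θ.r x y) : x = y := by
  by_contra hne
  have hf := h (fun u v => if u = x ∧ v = y then y else u) ?_ ?_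
  · rcases hf with hf | hf
    · have := hf x y
      simp at this
      exact hne this.symm
    · have := hf y x
      have hne' : ¬ (y = x) := fun e => hne e.symm
      simp [hne'] at this
  · intro u
    by_cases hu : u = x ∧ u = y
    · exact absurd (hu.1.symm.trans hu.2) hne
    · simp [hu]
  · intro θ hθ
    have key : ∀ u v, θ.r (if u = x ∧ v = y then y else u) u := by
      intro u v
      by_cases hu : u = x ∧ v = y
      · rw [if_pos hu, hu.1]
        exact θ.symm (hxy θ hθ)
      · rw [if_neg hu]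
    intro u u' v v' huu _
    exact θ.trans (key u v) (θ.trans huu (θ.symm (key u' v')))

open Classical in
/-- second necessary condition: the join of the members of `S` is the total relation -/
theorem nec_join {E : Type u} (S : Set (Setoid E)) (h : PropP S) (A : Set E)
    (hA : ∀ θ ∈ S, ∀ x y, θ.r x y → (x ∈ A ↔ y ∈ A)) : A = ∅ ∨ A = Set.univ := by
  by_contra hcon
  push Not at hcon
  obtain ⟨h1, h2⟩ := hcon
  obtain ⟨a, ha⟩ := Set.nonempty_iff_ne_empty.2 (Set.nonempty_iff_ne_empty.1 h1)
  obtain ⟨b, hb⟩ := (Set.ne_univ_iff_exists_notMem A).1 h2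
  have hne : a ≠ b := by rintro rfl; exact hb ha
  have hf := h (fun u v => if u ∈ A ∧ v ∉ A then v else u) ?_ ?_
  · rcases hf with hf | hf
    · have := hf a b
      simp [ha, hb] at this
      exact hne this.symm
    · have := hf b a
      simp [hb] at this
      exact hne this.symm
  · intro u
    by_cases hu : u ∈ A <;> simp [hu]
  · intro θ hθ u u' v v' huu hvv
    have e1 := hA θ hθ _ _ huu
    have e2 := hA θ hθ _ _ hvv
    by_cases hu : u ∈ A ∧ v ∉ A
    · have hu' : u' ∈ A ∧ v' ∉ A := ⟨e1.1 hu.1, fun h => hu.2 (e2.2 h)⟩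
      simp only [if_pos hu, if_pos hu']
      exact hvv
    · have hu' : ¬ (u' ∈ A ∧ v' ∉ A) := fun h => hu ⟨e1.2 h.1, fun h' => h.2 (e2.1 h')⟩
      simp only [if_neg hu, if_neg hu']
      exact huu

open Classical in
/-- third necessary condition: no class of a member `θ` of `S` is dominated by another class -/
theorem nec_dom {E : Type u} (S : Set (Setoid E)) (h : PropP S) (θ : Setoid E) (x y : E)
    (hdom : ∀ u, θ.r x u → ∃ w, θ.r y w ∧ ∀ φ ∈ S, φ ≠ θ → φ.r u w) : θ.r x y := by
  by_contra hne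
  choose g hg1 hg2 using hdom
  have hf := h (fun u v => if hh : θ.r x u ∧ ¬ θ.r x v then g u hh.1 else u) ?_ ?_
  · rcases hf with hf | hf
    · have e := hf x y
      have hh : θ.r x x ∧ ¬ θ.r x y := ⟨θ.refl x, hne⟩
      simp only [dif_pos hh] at e
      have := hg1 x hh.1
      rw [e] at this
      exact hne (θ.symm this)
    · have e := hf y x
      have hh : ¬ (θ.r x y ∧ ¬ θ.r x x) := fun h => hne h.1
      simp only [dif_neg hh] at e
      exact hne (e ▸ θ.refl x)
  · intro u
    have hh : ¬ (θ.r x u ∧ ¬ θ.r x u) := fun h => h.2 h.1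
    simp only [dif_neg hh]
  · intro φ hφ
    by_cases hφθ : φ = θ
    · subst hφθ
      intro u u' v v' huu hvv
      by_cases hh : φ.r x u ∧ ¬ φ.r x v
      · have hh' : φ.r x u' ∧ ¬ φ.r x v' :=
          ⟨φ.trans hh.1 huu, fun h => hh.2 (φ.trans h (φ.symm hvv))⟩
        simp only [dif_pos hh, dif_pos hh']
        exact φ.trans (φ.symm (hg1 u hh.1)) (hg1 u' hh'.1)
      · have hh' : ¬ (φ.r x u' ∧ ¬ φ.r x v') := fun h =>
          hh ⟨φ.trans h.1 (φ.symm huu), fun h' => h.2 (φ.trans h' hvv)⟩
        simp only [dif_neg hh, dif_neg hh']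
        exact huu
    · have key : ∀ u v, φ.r (if hh : θ.r x u ∧ ¬ θ.r x v then g u hh.1 else u) u := by
        intro u v
        by_cases hh : θ.r x u ∧ ¬ θ.r x v
        · rw [dif_pos hh]
          exact φ.symm (hg2 u hh.1 φ hφ hφθ)
        · rw [dif_neg hh]
      intro u u' v v' huu _
      exact φ.trans (key u v) (φ.trans huu (φ.symm (key u' v')))

/-- the negative part -/
theorem negative {E : Type u} (α β : Setoid E) (hL : Linear α β)
    (h : PropP ({α, β} : Set (Setoid E))) : Subsingleton E ∨ Nondegenerate α β := by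
  by_cases hE : Subsingleton E
  · exact Or.inl hE
  right
  have n1 : ∀ x y, α.r x y → β.r x y → x = y := by
    intro x y ha hb
    refine nec_meet _ h x y ?_
    rintro θ (rfl | rfl)
    · exact ha
    · exact hb
  -- a nontrivial pair
  have hnt : ∀ x : E, ∃ w, w ≠ x := by
    intro x
    by_contra hcon
    push Not at hcon
    exact hE ⟨fun a b => (hcon a).trans (hcon b).symm⟩
  have n2 : ∀ x, ∃ y, β.r x y ∧ y ≠ x := by
    intro x
    by_contra hcon
    push Not at hcon
    -- the class of `x` is a singleton; find `e' ≠ x` in its `α`-class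
    obtain ⟨e', he1, he2⟩ : ∃ e', α.r x e' ∧ e' ≠ x := by
      obtain ⟨w, hw⟩ := hnt x
      by_cases hxw : α.r x w
      · exact ⟨w, hxw, hw⟩
      · obtain ⟨u, v, a1, a2, a3, -⟩ := hL x w hxw
        refine ⟨u, a1, ?_⟩
        rintro rfl
        have := hcon v a2
        subst this
        exact hxw a3
    have hab : α ≠ β := by
      rintro rfl
      exact he2 (hcon e' he1)
    -- the `β`-class of `x` is dominated by the `β`-class of `e'`
    have := nec_dom _ h β x e' ?_
    · exact he2 (hcon e' this)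
    · intro u hu
      have := hcon u hu
      subst this
      refine ⟨e', β.refl e', ?_⟩
      rintro φ (rfl | rfl) hne
      · exact he1
      · exact absurd rfl hne
  refine ⟨n1, n2, ?_⟩
  intro x
  by_contra hcon
  push Not at hcon
  -- every point is on the line of `x`
  have htot : ∀ y, β.r x y := by
    intro y
    obtain ⟨y', hy', hne⟩ := n2 y
    have hyy : ¬ α.r y y' := fun h => hne (n1 y y' h hy').symm
    obtain ⟨z, hz1, hz2⟩ := hcon y
    obtain ⟨z', hz1', hz2'⟩ := hcon y'
    obtain ⟨u, v, a1, a2, a3, a4⟩ := hL y y' hyy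
    have b1 := a4 y y' (α.refl y) hy' (α.refl y')
    have b2 := a4 z z' (α.symm hz2) (β.trans (β.symm hz1) hz1') hz2'
    exact β.trans hz1 (β.trans (β.symm b2) b1)
  have hαeq : ∀ y z, α.r y z → y = z := fun y z h =>
    n1 y z h (β.trans (β.symm (htot y)) (htot z))
  obtain ⟨w, hw⟩ := hnt x
  have := nec_dom _ h α x w ?_
  · exact hw (hαeq _ _ this).symm
  · intro u hu
    refine ⟨w, α.refl w, ?_⟩
    rintro φ (rfl | rfl) hne
    · exact absurd rfl hne
    · exact φ.trans (φ.symm (htot u)) (htot w)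

/-- the ordered pairs of different elements of `V` -/
abbrev Pairs (V : Type u) : Type u := {p : V × V // p.1 ≠ p.2}

/-- same first coordinate -/
def sameFirst (V : Type u) : Setoid (Pairs V) where
  r p q := p.1.1 = q.1.1
  iseqv := ⟨fun _ => rfl, fun h => h.symm, fun h h' => h.trans h'⟩

/-- same unordered pair -/
def sameEdge (V : Type u) : Setoid (Pairs V) where
  r p q := s(p.1.1, p.1.2) = s(q.1.1, q.1.2)
  iseqv := ⟨fun _ => rfl, fun h => h.symm, fun h h' => h.trans h'⟩

theorem example_linear (V : Type u) : Linear (sameFirst V) (sameEdge V) := by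
  rintro ⟨⟨a, a'⟩, ha⟩ ⟨⟨b, b'⟩, hb⟩ hab
  have hab' : a ≠ b := hab
  refine ⟨⟨(a, b), hab'⟩, ⟨(b, a), hab'.symm⟩, rfl, Sym2.eq_swap, rfl, ?_⟩
  rintro ⟨⟨c, c'⟩, hc⟩ ⟨⟨d, d'⟩, hd⟩ h1 h2 h3
  have h1' : a = c := h1
  have h3' : d = b := h3
  subst h1' h3'
  have h2' : s(a, c') = s(d, d') := h2
  change s(a, d) = s(a, c')
  rw [Sym2.eq_iff] at h2'
  rcases h2' with ⟨e, _⟩ | ⟨_, e⟩
  · exact absurd e hab'
  · rw [e]

theorem example_nondeg (V : Type u) (h3 : ∀ a b : V, ∃ c, c ≠ a ∧ c ≠ b) :
    Nondegenerate (sameFirst V) (sameEdge V) := by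
  refine ⟨?_, ?_, ?_⟩
  · rintro ⟨⟨a, a'⟩, ha⟩ ⟨⟨b, b'⟩, hb⟩ h1 h2
    have h1' : a = b := h1
    subst h1'
    have h2' : s(a, a') = s(a, b') := h2
    have : a' = b' := by
      rw [Sym2.eq_iff] at h2'
      rcases h2' with ⟨_, e⟩ | ⟨e, e'⟩
      · exact e
      · exact absurd e'.symm ha
    subst this
    rfl
  · rintro ⟨⟨a, a'⟩, ha⟩
    refine ⟨⟨(a', a), Ne.symm ha⟩, Sym2.eq_swap, ?_⟩
    intro e
    have := congrArg (fun p : Pairs V => p.1.1) e
    exact ha this.symm
  · rintro ⟨⟨a, a'⟩, ha⟩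
    obtain ⟨c, hca, hca'⟩ := h3 a a'
    refine ⟨⟨(c, a), hca⟩, ?_⟩
    rintro ⟨⟨b, b'⟩, hb⟩ h1 h2
    have h1' : s(a, a') = s(b, b') := h1
    have h2' : b = c := h2
    subst h2'
    rw [Sym2.eq_iff] at h1'
    rcases h1' with ⟨e, _⟩ | ⟨_, e⟩
    · exact hca e.symm
    · exact hca' e.symm

/-- **Theorem.** (1) Let `α, β` be equivalence relations on a set `E` such that any two different
`α`-classes are met by exactly one common `β`-class. Then `{α, β}` has property (P) if and only if
`E` has at most one element or (`α ∩ β` is equality, every `β`-class has at least two elements and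
every `β`-class is disjoint from some `α`-class). (2) In the second case every family `S` that
contains `α` and `β` has property (P). (3) Three necessary conditions for an arbitrary family `S`
with property (P). (4) Example: ordered pairs of different elements of a set with at least three
elements. -/
theorem result :
    (∀ (E : Type u) (α β : Setoid E), Linear α β →
      (PropP ({α, β} : Set (Setoid E)) ↔ (Subsingleton E ∨ Nondegenerate α β))) ∧
    (∀ (E : Type u) (α β : Setoid E), Linear α β → Nondegenerate α β →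
      ∀ S : Set (Setoid E), α ∈ S → β ∈ S → PropP S) ∧
    (∀ (E : Type u) (S : Set (Setoid E)), PropP S →
      (∀ x y, (∀ θ ∈ S, θ.r x y) → x = y) ∧
      (∀ A : Set E, (∀ θ ∈ S, ∀ x y, θ.r x y → (x ∈ A ↔ y ∈ A)) → A = ∅ ∨ A = Set.univ) ∧
      (∀ θ ∈ S, ∀ x y, (∀ u, θ.r x u → ∃ w, θ.r y w ∧ ∀ φ ∈ S, φ ≠ θ → φ.r u w) → θ.r x y)) ∧
    (∀ V : Type u, (∀ a b : V, ∃ c, c ≠ a ∧ c ≠ b) →
      Linear (sameFirst V) (sameEdge V) ∧ Nondegenerate (sameFirst V) (sameEdge V)) := by
  refine ⟨?_, fun E α β hL hN S hα hβ => positive α β hL hN S hα hβ,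
    fun E S h => ⟨nec_meet S h, nec_join S h, fun θ _ x y => nec_dom S h θ x y⟩,
    fun V h3 => ⟨example_linear V, example_nondeg V h3⟩⟩
  intro E α β hL
  refine ⟨negative α β hL, ?_⟩
  rintro (hE | hN)
  · intro f _ _
    left
    intro x y
    exact Subsingleton.elim _ _
  · exact positive α β hL hN _ (Set.mem_insert _ _) (Set.mem_insert_of_mem _ rfl)

end Pool.Agent.Results.MP_51c8ca_al.LinearSpaces
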