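import Pool.Agent.Results.MP_51c8ca_al.FourCycleFree

set_option autoImplicit false

/-!
# MP_51c8ca_al: property (P) for families of any size without 4-cycles
-/

namespace Pool.Agent.Results.MP_51c8ca_al.ThickFamilies

open Pool.Agent.Results.MP_51c8ca_al.FourCycleFree

universe u

variable {E : Type u} {f : E → E → E}

/-- `x` and `y` lie in the same component for the pair `α, β` -/
def Comp (α β : Setoid E) (x y : E) : Prop :=
  ∀ A : Set E, (∀ a b, α.r a b → (a ∈ A ↔ b ∈ A)) → (∀ a b, β.r a b → (a ∈ A ↔ b ∈ A)) →
    (x ∈ A ↔ y ∈ A)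

theorem Comp.rfl' {α β : Setoid E} (x : E) : Comp α β x x := fun _ _ _ => Iff.rfl

theorem Comp.symm {α β : Setoid E} {x y : E} (h : Comp α β x y) : Comp α β y x :=
  fun A h1 h2 => (h A h1 h2).symm

theorem Comp.trans {α β : Setoid E} {x y z : E} (h : Comp α β x y) (h' : Comp α β y z) :
    Comp α β x z := fun A h1 h2 => (h A h1 h2).trans (h' A h1 h2)

theorem Comp.swap {α β : Setoid E} {x y : E} (h : Comp α β x y) : Comp β α x y :=
  fun A h1 h2 => h A h2 h1

theorem Comp.left {α β : Setoid E} {x y : E} (h : α.r x y) : Comp α β x y :=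
  fun _ h1 _ => h1 x y h

theorem Comp.right {α β : Setoid E} {x y : E} (h : β.r x y) : Comp α β x y :=
  fun _ _ h2 => h2 x y h

theorem comp_f {α β : Setoid E} (hid : ∀ x, f x x = x) (fα : Preserves f α)
    (fβ : Preserves f β) {x y z : E} (hy : Comp α β x y) (hz : Comp α β x z) :
    Comp α β x (f y z) := by
  intro A h1 h2
  have s1 : f x x ∈ A ↔ f y x ∈ A := hy {u | f u x ∈ A}
    (fun a b hab => h1 _ _ (fα a b x x hab (α.refl x)))
    (fun a b hab => h2 _ _ (fβ a b x x hab (β.refl x)))
  have s2 : f y x ∈ A ↔ f y z ∈ A := hz {v | f y v ∈ A}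
    (fun a b hab => h1 _ _ (fα y y a b (α.refl y) hab))
    (fun a b hab => h2 _ _ (fβ y y a b (β.refl y) hab))
  rw [hid] at s1
  exact s1.trans s2

/-- first type on a component -/
def Ty (f : E → E → E) (x : E) (α β : Setoid E) : Prop :=
  ∀ y z, Comp α β x y → Comp α β x z → f y z = y

theorem comp_type [Finite E] (α β : Setoid E) (h4 : NoFourCycle α β)
    (hα : ∀ x, ∃ y, y ≠ x ∧ α.r x y) (hβ : ∀ x, ∃ y, y ≠ x ∧ β.r x y)
    (hid : ∀ x, f x x = x) (fα : Preserves f α) (fβ : Preserves f β) (x : E) :
    Ty f x α β ∨ ∀ y z, Comp α β x y → Comp α β x z → f y z = z := by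
  let K := {y : E // Comp α β x y}
  let α' : Setoid K := Setoid.comap Subtype.val α
  let β' : Setoid K := Setoid.comap Subtype.val β
  have hB : BigClasses α' β' := by
    rintro ⟨y, hy⟩
    constructor
    · obtain ⟨z, hz, hyz⟩ := hα y
      exact ⟨⟨z, hy.trans (Comp.left hyz)⟩, fun e => hz (congrArg Subtype.val e), hyz⟩
    · obtain ⟨z, hz, hyz⟩ := hβ y
      exact ⟨⟨z, hy.trans (Comp.right hyz)⟩, fun e => hz (congrArg Subtype.val e), hyz⟩
  have h4' : NoFourCycle α' β' := by
    intro a b c d h1 h2 h3 h5
    rcases h4 a.1 b.1 c.1 d.1 h1 h2 h3 h5 with e | e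
    · exact Or.inl (Subtype.ext e)
    · exact Or.inr (Subtype.ext e)
  have hC : Connected α' β' := by
    intro A h1 h2
    by_contra hcon
    push Not at hcon
    obtain ⟨c1, c2⟩ := hcon
    obtain ⟨a, ha⟩ := Set.nonempty_iff_ne_empty.2 (Set.nonempty_iff_ne_empty.1 c1)
    obtain ⟨b, hb⟩ := (Set.ne_univ_iff_exists_notMem A).1 c2
    have hab : Comp α β a.1 b.1 := a.2.symm.trans b.2
    have k1 : ∀ u u', α.r u u' → (∃ h : Comp α β x u, (⟨u, h⟩ : K) ∈ A) →
        ∃ h : Comp α β x u', (⟨u', h⟩ : K) ∈ A := by
      rintro u u' huu ⟨h, hA⟩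
      exact ⟨h.trans (Comp.left huu), (h1 ⟨u, h⟩ ⟨u', h.trans (Comp.left huu)⟩ huu).1 hA⟩
    have k2 : ∀ u u', β.r u u' → (∃ h : Comp α β x u, (⟨u, h⟩ : K) ∈ A) →
        ∃ h : Comp α β x u', (⟨u', h⟩ : K) ∈ A := by
      rintro u u' huu ⟨h, hA⟩
      exact ⟨h.trans (Comp.right huu), (h2 ⟨u, h⟩ ⟨u', h.trans (Comp.right huu)⟩ huu).1 hA⟩
    have := hab {u | ∃ h : Comp α β x u, (⟨u, h⟩ : K) ∈ A}
      (fun u u' huu => ⟨k1 u u' huu, k1 u' u (α.symm huu)⟩)
      (fun u u' huu => ⟨k2 u u' huu, k2 u' u (β.symm huu)⟩)
    obtain ⟨_, hb'⟩ := this.1 ⟨a.2, ha⟩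
    exact hb hb'
  rcases positive α' β' h4' hB hC
    (fun y z => (⟨f y.1 z.1, comp_f hid fα fβ y.2 z.2⟩ : K)) (fun y => Subtype.ext (hid y.1))
    (fun y y' z z' h h' => fα y.1 y'.1 z.1 z'.1 h h')
    (fun y y' z z' h h' => fβ y.1 y'.1 z.1 z'.1 h h') with h | h
  · left
    intro y z hy hz
    exact congrArg Subtype.val (h ⟨y, hy⟩ ⟨z, hz⟩)
  · right
    intro y z hy hz
    exact congrArg Subtype.val (h ⟨y, hy⟩ ⟨z, hz⟩)

/-- The family `S` has two different members, all classes of its members have at least two
elements, and no two different members of `S` form a 4-cycle. -/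
structure Thick (S : Set (Setoid E)) : Prop where
  two : ∃ α ∈ S, ∃ β ∈ S, α ≠ β
  big : ∀ θ ∈ S, ∀ x, ∃ y, y ≠ x ∧ θ.r x y
  noFour : ∀ α ∈ S, ∀ β ∈ S, α ≠ β → NoFourCycle α β

theorem Thick.other {S : Set (Setoid E)} (hS : Thick S) (θ : Setoid E) : ∃ φ ∈ S, φ ≠ θ := by
  obtain ⟨α, hα, β, hβ, hne⟩ := hS.two
  by_cases h : α = θ
  · exact ⟨β, hβ, fun e => hne (h.trans e.symm)⟩
  · exact ⟨α, hα, h⟩

section

variable {S : Set (Setoid E)}

theorem ty_iff [Finite E] (hS : Thick S) (hid : ∀ x, f x x = x)
    (hf : ∀ θ ∈ S, Preserves f θ) (x : E) {θ φ : Setoid E} (hθ : θ ∈ S) (hφ : φ ∈ S)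
    (hne : θ ≠ φ) : Ty f x θ φ ↔ ∀ y, θ.r x y → f x y = x := by
  constructor
  · intro h y hy
    exact h x y (Comp.rfl' x) (Comp.left hy)
  · intro h
    rcases comp_type θ φ (hS.noFour θ hθ φ hφ hne) (hS.big θ hθ) (hS.big φ hφ) hid (hf θ hθ)
      (hf φ hφ) x with e | e
    · exact e
    · exfalso
      obtain ⟨y, hy, hxy⟩ := hS.big θ hθ x
      have e1 := e x y (Comp.rfl' x) (Comp.left hxy)
      rw [h y hxy] at e1
      exact hy e1.symm

theorem ty_swap (x : E) {θ φ : Setoid E} (h : Ty f x θ φ) : Ty f x φ θ :=
  fun y z hy hz => h y z hy.swap hz.swap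

theorem t_same [Finite E] (hS : Thick S) (hid : ∀ x, f x x = x)
    (hf : ∀ θ ∈ S, Preserves f θ) (x : E) {θ φ : Setoid E} (hθ : θ ∈ S) (hφ : φ ∈ S)
    (h : ∀ y, θ.r x y → f x y = x) : ∀ y, φ.r x y → f x y = x := by
  by_cases hne : θ = φ
  · rw [← hne]
    exact h
  · exact (ty_iff hS hid hf x hφ hθ (Ne.symm hne)).1
      (ty_swap x ((ty_iff hS hid hf x hθ hφ hne).2 h))

/-- all components have the same type -/
theorem types [Finite E] (hS : Thick S)
    (hJ : ∀ A : Set E, (∀ θ ∈ S, ∀ x y, θ.r x y → (x ∈ A ↔ y ∈ A)) → A = ∅ ∨ A = Set.univ)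
    (hid : ∀ x, f x x = x) (hf : ∀ θ ∈ S, Preserves f θ) :
    (∀ x, ∀ θ ∈ S, ∀ y, θ.r x y → f x y = x) ∨ (∀ x, ∀ θ ∈ S, ∀ y, θ.r x y → f x y = y) := by
  have half : ∀ θ ∈ S, ∀ x x', θ.r x x' → (∀ φ ∈ S, ∀ y, φ.r x y → f x y = x) →
      ∀ φ ∈ S, ∀ y, φ.r x' y → f x' y = x' := by
    intro θ hθ x x' hxx hx φ hφ
    obtain ⟨ψ, hψ, hψθ⟩ := hS.other θ
    have h1 : Ty f x θ ψ := (ty_iff hS hid hf x hθ hψ hψθ.symm).2 (hx θ hθ)
    have h2 : ∀ y, θ.r x' y → f x' y = x' := fun y hy =>
      h1 x' y (Comp.left hxx) ((Comp.left hxx).trans (Comp.left hy))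
    exact t_same hS hid hf x' hθ hφ h2
  rcases hJ {x | ∀ φ ∈ S, ∀ y, φ.r x y → f x y = x}
    (fun θ hθ x y hxy => ⟨half θ hθ x y hxy, half θ hθ y x (θ.symm hxy)⟩) with h | h
  · right
    intro x θ hθ y hxy
    obtain ⟨ψ, hψ, hψθ⟩ := hS.other θ
    rcases comp_type θ ψ (hS.noFour θ hθ ψ hψ hψθ.symm) (hS.big θ hθ) (hS.big ψ hψ) hid (hf θ hθ)
      (hf ψ hψ) x with e | e
    · exfalso
      have hx : x ∈ ({x | ∀ φ ∈ S, ∀ y, φ.r x y → f x y = x} : Set E) := by
        intro φ hφ
        exact t_same hS hid hf x hθ hφ ((ty_iff hS hid hf x hθ hψ hψθ.symm).1 e)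
      rw [h] at hx
      exact hx
    · exact e x y (Comp.rfl' x) (Comp.left hxy)
  · left
    intro x
    have hx : x ∈ ({x | ∀ φ ∈ S, ∀ y, φ.r x y → f x y = x} : Set E) := by rw [h]; trivial
    exact hx

/-- walks that are infinite to the left and end at time `m` -/
structure Wk (S : Set (Setoid E)) (m : ℤ) (e : ℤ → E) (c : ℤ → Setoid E) : Prop where
  mem : ∀ i, i < m → c i ∈ S
  rel : ∀ i, i < m → (c i).r (e i) (e (i + 1))
  ne : ∀ i, i < m → e i ≠ e (i + 1)
  cne : ∀ i, i + 1 < m → c i ≠ c (i + 1)

theorem forwardF (hS : Thick S) (hid : ∀ x, f x x = x) (hf : ∀ θ ∈ S, Preserves f θ)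
    {m : ℤ} {e : ℤ → E} {c : ℤ → Setoid E} (W : Wk S m e c)
    (hp : ∀ (n : ℕ) (i : ℤ), i + n ≤ 0 → f (e i) (e (i + n)) = e i) :
    ∀ (n : ℕ) (i : ℤ), i + n ≤ m → f (e i) (e (i + n)) = e i := by
  intro n
  induction n with
  | zero => intro i _; simp [hid]
  | succ n ih =>
    have main : ∀ (k : ℕ) (i : ℤ), i + ((n + 1 : ℕ) : ℤ) ≤ k → i + ((n + 1 : ℕ) : ℤ) ≤ m →
        f (e i) (e (i + ((n + 1 : ℕ) : ℤ))) = e i := by
      intro k
      induction k with
      | zero => intro i h _; exact hp (n + 1) i (by simpa using h)
      | succ k ihk =>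
        intro i h1 h2
        push_cast at h1 h2
        have prev := ihk (i - 1) (by push_cast; linarith) (by push_cast; linarith)
        rw [show i - 1 + ((n + 1 : ℕ) : ℤ) = i + n by push_cast; ring] at prev
        have b := ih i (by linarith)
        have b' := ih (i + 1) (by linarith)
        rw [show i + 1 + (n : ℤ) = i + n + 1 by ring] at b'
        rw [show i + ((n + 1 : ℕ) : ℤ) = i + n + 1 by push_cast; ring]
        have r1 := W.rel (i + n) (by linarith)
        have m1 := W.mem (i + n) (by linarith)
        have bz : (c (i + n)).r (e i) (f (e i) (e (i + n + 1))) := by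
          have := hf _ m1 (e i) (e i) _ _ ((c (i + n)).refl _) r1
          rwa [b] at this
        by_cases hc : c i = c (i + n)
        · have c1 := W.cne (i - 1) (by linarith)
          have r0 := W.rel (i - 1) (by linarith)
          have m0 := W.mem (i - 1) (by linarith)
          have n0 := W.ne (i - 1) (by linarith)
          rw [show i - 1 + 1 = i by ring] at c1 r0 n0
          rw [hc] at c1
          have q1 : (c (i - 1)).r (f (e (i - 1)) (e (i + n))) (e i) := by
            have := hf _ m0 _ _ (e (i + n)) (e (i + n)) r0 ((c (i - 1)).refl _)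
            rwa [b] at this
          have q3 : (c (i - 1)).r (f (e i) (e (i + n + 1))) (f (e (i - 1)) (e (i + n + 1))) :=
            hf _ m0 _ _ _ _ ((c (i - 1)).symm r0) ((c (i - 1)).refl _)
          have q4 : (c (i + n)).r (f (e (i - 1)) (e (i + n + 1))) (f (e (i - 1)) (e (i + n))) :=
            hf _ m1 _ _ _ _ ((c (i + n)).refl _) ((c (i + n)).symm r1)
          rcases hS.noFour _ m0 _ m1 c1 _ _ _ _ q1 bz q3 q4 with h | h
          · rw [prev] at h
            exact absurd h n0
          · exact h.symm
        · have mi := W.mem i (by linarith)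
          have ri := W.rel i (by linarith)
          have q : (c i).r (e i) (f (e i) (e (i + n + 1))) := by
            have := hf _ mi (e (i + 1)) (e i) (e (i + n + 1)) (e (i + n + 1))
              ((c i).symm ri) ((c i).refl _)
            rw [b'] at this
            exact (c i).trans ri this
          exact ((hS.noFour _ mi _ m1 hc).disj q bz).symm
    intro i hi
    refine main (i + ((n + 1 : ℕ) : ℤ)).toNat i ?_ hi
    exact Int.self_le_toNat _

/-- a left-infinite walk that ends in `x`, whose last colour is not `θ` -/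
theorem past [Finite E] (hS : Thick S) (hid : ∀ x, f x x = x) (hf : ∀ θ ∈ S, Preserves f θ)
    (ht : ∀ x, ∀ θ ∈ S, ∀ y, θ.r x y → f x y = x) (x : E) {θ : Setoid E} (hθ : θ ∈ S) :
    ∃ (e : ℤ → E) (c : ℤ → Setoid E), Wk S 0 e c ∧ e 0 = x ∧ c (-1) ≠ θ ∧
      ∀ (n : ℕ) (i : ℤ), i + n ≤ 0 → f (e i) (e (i + n)) = e i := by
  obtain ⟨α, hα, hne⟩ := hS.other θ
  have hty : Ty f x α θ := (ty_iff hS hid hf x hα hθ hne).2 (ht x α hα)
  choose ga ga1 ga2 using hS.big α hα
  choose gb gb1 gb2 using hS.big θ hθ
  let p : ℕ → E := fun n => Nat.rec x (fun k y => if k % 2 = 0 then ga y else gb y) n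
  let cc : ℕ → Setoid E := fun k => if k % 2 = 0 then α else θ
  have cc0 : ∀ k, k % 2 = 0 → cc k = α := fun k hk => if_pos hk
  have cc1 : ∀ k, ¬ k % 2 = 0 → cc k = θ := fun k hk => if_neg hk
  have p0 : p 0 = x := rfl
  have ps : ∀ k, p (k + 1) = if k % 2 = 0 then ga (p k) else gb (p k) := fun k => rfl
  clear_value p cc
  have prel : ∀ k, (cc k).r (p (k + 1)) (p k) := by
    intro k
    rw [ps]
    by_cases hk : k % 2 = 0
    · rw [cc0 k hk, if_pos hk]
      exact α.symm (ga2 _)
    · rw [cc1 k hk, if_neg hk]
      exact θ.symm (gb2 _)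
  have pne : ∀ k, p (k + 1) ≠ p k := by
    intro k
    rw [ps]
    by_cases hk : k % 2 = 0
    · rw [if_pos hk]; exact ga1 _
    · rw [if_neg hk]; exact gb1 _
  have pcomp : ∀ k, Comp α θ x (p k) := by
    intro k
    induction k with
    | zero => rw [p0]; exact Comp.rfl' x
    | succ k ih =>
      refine ih.trans (Comp.symm ?_)
      have := prel k
      by_cases hk : k % 2 = 0
      · rw [cc0 k hk] at this
        exact Comp.left this
      · rw [cc1 k hk] at this
        exact Comp.right this
  refine ⟨fun i => p (-i).toNat, fun i => cc (-i - 1).toNat, ?_, ?_, ?_, ?_⟩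
  · have tn : ∀ i : ℤ, i < 0 → (-i).toNat = (-i - 1).toNat + 1 ∧ (-(i + 1)).toNat = (-i - 1).toNat := by
      intro i hi
      omega
    constructor
    · intro i _
      show cc (-i - 1).toNat ∈ S
      by_cases hk : (-i - 1).toNat % 2 = 0
      · rw [cc0 _ hk]; exact hα
      · rw [cc1 _ hk]; exact hθ
    · intro i hi
      obtain ⟨t1, t2⟩ := tn i hi
      show (cc (-i - 1).toNat).r (p (-i).toNat) (p (-(i + 1)).toNat)
      rw [t1, t2]
      exact prel _
    · intro i hi
      obtain ⟨t1, t2⟩ := tn i hi
      show p (-i).toNat ≠ p (-(i + 1)).toNat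
      rw [t1, t2]
      exact pne _
    · intro i hi
      have t3 : (-i - 1).toNat = (-(i + 1) - 1).toNat + 1 := by omega
      show cc (-i - 1).toNat ≠ cc (-(i + 1) - 1).toNat
      rw [t3]
      by_cases hk : (-(i + 1) - 1).toNat % 2 = 0
      · rw [cc0 _ hk, cc1 _ (by omega)]
        exact hne.symm
      · rw [cc1 _ hk, cc0 _ (by omega)]
        exact hne
  · show p (-(0 : ℤ)).toNat = x
    rw [show (-(0 : ℤ)).toNat = 0 by norm_num]
    exact p0
  · show cc (-(-1 : ℤ) - 1).toNat ≠ θ
    rw [show (-(-1 : ℤ) - 1).toNat = 0 by norm_num, cc0 0 rfl]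
    exact hne
  · intro n i _
    exact hty _ _ (pcomp _) (pcomp _)

theorem all_first [Finite E] (hS : Thick S)
    (hJ : ∀ A : Set E, (∀ θ ∈ S, ∀ x y, θ.r x y → (x ∈ A ↔ y ∈ A)) → A = ∅ ∨ A = Set.univ)
    (hid : ∀ x, f x x = x) (hf : ∀ θ ∈ S, Preserves f θ)
    (ht : ∀ x, ∀ θ ∈ S, ∀ y, θ.r x y → f x y = x) : ∀ x y, f x y = x := by
  intro x
  let R : E → Prop := fun y => ∃ (m : ℕ) (e : ℤ → E) (c : ℤ → Setoid E), Wk S m e c ∧ e 0 = x ∧
    e m = y ∧ ∀ (n : ℕ) (i : ℤ), i + n ≤ 0 → f (e i) (e (i + n)) = e i
  have step : ∀ θ ∈ S, ∀ y y', θ.r y y' → R y → R y' := by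
    rintro θ hθ y y' hyy ⟨m, e, c, W, e0, em, hp⟩
    by_cases hy : y' = y
    · rw [hy]
      exact ⟨m, e, c, W, e0, em, hp⟩
    match m, W, em with
    | 0, W, em =>
      have hxy : y = x := by rw [← em, ← e0]; simp
      obtain ⟨e, c, W, e0, hc, hp⟩ := past hS hid hf ht x hθ
      refine ⟨1, Function.update e 1 y', Function.update c 0 θ, ?_, ?_, ?_, ?_⟩
      · constructor
        · intro i hi
          by_cases h : i = 0
          · subst h; simp [hθ]
          · rw [Function.update_of_ne h]
            exact W.mem i (by push_cast at hi; omega)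
        · intro i hi
          by_cases h : i = 0
          · subst h
            rw [Function.update_self, Function.update_of_ne (by norm_num), zero_add,
              Function.update_self, e0, ← hxy]
            exact hyy
          · rw [Function.update_of_ne h, Function.update_of_ne (by push_cast at hi; omega),
              Function.update_of_ne (by push_cast at hi; omega)]
            exact W.rel i (by push_cast at hi; omega)
        · intro i hi
          by_cases h : i = 0
          · subst h
            rw [Function.update_of_ne (by norm_num), zero_add, Function.update_self, e0, ← hxy]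
            exact fun e => hy e.symm
          · rw [Function.update_of_ne (by push_cast at hi; omega),
              Function.update_of_ne (by push_cast at hi; omega)]
            exact W.ne i (by push_cast at hi; omega)
        · intro i hi
          by_cases h : i = -1
          · subst h
            rw [Function.update_of_ne (by norm_num), show (-1 : ℤ) + 1 = 0 by norm_num,
              Function.update_self]
            exact hc
          · rw [Function.update_of_ne (by push_cast at hi; omega),
              Function.update_of_ne (by push_cast at hi; omega)]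
            exact W.cne i (by push_cast at hi; omega)
      · rw [Function.update_of_ne (by norm_num)]
        exact e0
      · simp
      · intro n i hi
        have hn : (0 : ℤ) ≤ n := Int.natCast_nonneg n
        rw [Function.update_of_ne (by omega), Function.update_of_ne (by omega)]
        exact hp n i hi
    | (k + 1), W, em =>
      push_cast at em
      by_cases hc : c k = θ
      · by_cases hk : y' = e k
        · refine ⟨k, e, c, ⟨fun i hi => W.mem i (by push_cast; omega),
            fun i hi => W.rel i (by push_cast; omega), fun i hi => W.ne i (by push_cast; omega),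
            fun i hi => W.cne i (by push_cast; omega)⟩, e0, hk.symm, hp⟩
        · refine ⟨k + 1, Function.update e ((k : ℤ) + 1) y', c, ?_, ?_, ?_, ?_⟩
          · constructor
            · exact W.mem
            · intro i hi
              push_cast at hi
              by_cases h : i = k
              · subst h
                rw [Function.update_of_ne (by omega), Function.update_self]
                have := W.rel k (by push_cast; omega)
                rw [hc, em] at this
                rw [hc]
                exact θ.trans this hyy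
              · rw [Function.update_of_ne (by omega), Function.update_of_ne (by omega)]
                exact W.rel i (by push_cast; omega)
            · intro i hi
              push_cast at hi
              by_cases h : i = k
              · subst h
                rw [Function.update_of_ne (by omega), Function.update_self]
                exact fun e => hk e.symm
              · rw [Function.update_of_ne (by omega), Function.update_of_ne (by omega)]
                exact W.ne i (by push_cast; omega)
            · exact W.cne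
          · rw [Function.update_of_ne (by omega)]
            exact e0
          · push_cast
            rw [Function.update_self]
          · intro n i hi
            have hn : (0 : ℤ) ≤ n := Int.natCast_nonneg n
            rw [Function.update_of_ne (by omega), Function.update_of_ne (by omega)]
            exact hp n i hi
      · refine ⟨k + 1 + 1, Function.update e ((k : ℤ) + 1 + 1) y',
          Function.update c ((k : ℤ) + 1) θ, ?_, ?_, ?_, ?_⟩
        · constructor
          · intro i hi
            push_cast at hi
            by_cases h : i = k + 1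
            · subst h
              rw [Function.update_self]
              exact hθ
            · rw [Function.update_of_ne h]
              exact W.mem i (by push_cast; omega)
          · intro i hi
            push_cast at hi
            by_cases h : i = k + 1
            · subst h
              rw [Function.update_self, Function.update_of_ne (by omega), Function.update_self, em]
              exact hyy
            · rw [Function.update_of_ne h, Function.update_of_ne (by omega),
                Function.update_of_ne (by omega)]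
              exact W.rel i (by push_cast; omega)
          · intro i hi
            push_cast at hi
            by_cases h : i = k + 1
            · subst h
              rw [Function.update_of_ne (by omega), Function.update_self, em]
              exact fun e => hy e.symm
            · rw [Function.update_of_ne (by omega), Function.update_of_ne (by omega)]
              exact W.ne i (by push_cast; omega)
          · intro i hi
            push_cast at hi
            by_cases h : i = k
            · subst h
              rw [Function.update_of_ne (by omega), Function.update_self]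
              exact hc
            · rw [Function.update_of_ne (by omega), Function.update_of_ne (by omega)]
              exact W.cne i (by push_cast; omega)
        · rw [Function.update_of_ne (by omega)]
          exact e0
        · push_cast
          rw [Function.update_self]
        · intro n i hi
          have hn : (0 : ℤ) ≤ n := Int.natCast_nonneg n
          rw [Function.update_of_ne (by omega), Function.update_of_ne (by omega)]
          exact hp n i hi
  have hRx : R x := by
    obtain ⟨α, hα, _⟩ := hS.two
    obtain ⟨e, c, W, e0, _, hp⟩ := past hS hid hf ht x hα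
    exact ⟨0, e, c, by simpa using W, e0, by simpa using e0, hp⟩
  rcases hJ {y | R y} (fun θ hθ y y' hyy => ⟨step θ hθ y y' hyy, step θ hθ y' y (θ.symm hyy)⟩)
    with h | h
  · exfalso
    have : x ∈ ({y | R y} : Set E) := hRx
    rw [h] at this
    exact this
  · intro y
    have : y ∈ ({y | R y} : Set E) := by rw [h]; trivial
    obtain ⟨m, e, c, W, e0, em, hp⟩ := this
    have := forwardF hS hid hf W hp m 0 (by simp)
    rw [zero_add, e0, em] at this
    exact this

theorem main [Finite E] (hS : Thick S) :
    PropP S ↔ ∀ A : Set E, (∀ θ ∈ S, ∀ x y, θ.r x y → (x ∈ A ↔ y ∈ A)) → A = ∅ ∨ A = Set.univ := by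
  constructor
  · intro h A hA
    exact nec_join S h A hA
  · intro hJ f hid hf
    rcases types hS hJ hid hf with ht | ht
    · left
      exact all_first hS hJ hid hf ht
    · right
      have hf' : ∀ θ ∈ S, Preserves (fun x y => f y x) θ :=
        fun θ hθ x x' y y' hx hy => hf θ hθ y y' x x' hy hx
      have ht' : ∀ x, ∀ θ ∈ S, ∀ y, θ.r x y → (fun x y => f y x) x y = x := by
        intro x θ hθ y hxy
        exact ht y θ hθ x (θ.symm hxy)
      intro x y
      exact all_first (f := fun x y => f y x) hS hJ hid hf' ht' y x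

end

/-- The join of `S` is the total relation: a subset of `E` that is a union of classes of every
member of `S` is empty or all of `E`. -/
def JoinTotal {E : Type u} (S : Set (Setoid E)) : Prop :=
  ∀ A : Set E, (∀ θ ∈ S, ∀ x y, θ.r x y → (x ∈ A ↔ y ∈ A)) → A = ∅ ∨ A = Set.univ

/-- **Theorem.** Let `S` be a family of equivalence relations on a finite set `E` with at least two
members, such that all classes of all members have at least two elements and no two different
members form a 4-cycle. Then `S` has property (P) if and only if the join of `S` is the total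
relation. In this case every family `T` such that all members of `S` are intersections of members
of `T` has property (P). -/
theorem result (E : Type u) [Finite E] (S : Set (Setoid E)) (hS : Thick S) :
    (PropP S ↔ JoinTotal S) ∧
    (JoinTotal S → ∀ T : Set (Setoid E),
      (∀ θ ∈ S, ∃ T' ⊆ T, ∀ x y, θ.r x y ↔ ∀ φ ∈ T', φ.r x y) → PropP T) := by
  refine ⟨main hS, fun hJ T hT f hid hf => (main hS).2 hJ f hid ?_⟩
  intro θ hθ x x' y y' hx hy
  obtain ⟨T', hT', h⟩ := hT θ hθ
  rw [h] at hx hy ⊢
  exact fun φ hφ => hf φ (hT' hφ) x x' y y' (hx φ hφ) (hy φ hφ)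

end Pool.Agent.Results.MP_51c8ca_al.ThickFamilies
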